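import Mathlib
import Pool.Agent.Helper671.UP.Univ2

set_option autoImplicit false
open Complex Set Filter Metric Topology

namespace Pool.Agent.Results.MP_c09211_an.OrderOfMagnitude

open Pool.Agent.Helper671.UP Pool.Agent.Helper671.UP.Arc

/-- `A_m(n)`: the supremum of `|a_m|` over the class. -/
noncomputable def Amax (n m : ℕ) : ℝ :=
  sSup {r : ℝ | ∃ P : Polynomial ℂ, UnivPoly n P ∧ r = ‖P.coeff m‖}

/-- `n₁(n)`: the least `j` with `2 ≤ j ≤ n` such that `A_m(n) ≤ 1` for all `j ≤ m ≤ n`. -/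
noncomputable def nOne (n : ℕ) : ℕ :=
  sInf {j : ℕ | 2 ≤ j ∧ j ≤ n ∧ ∀ m : ℕ, j ≤ m → m ≤ n → Amax n m ≤ 1}

theorem inS_poly (n : ℕ) (P : Polynomial ℂ) (hP : UnivPoly n P) : InS (fun z => P.eval z) := by
  obtain ⟨hdeg, h0, h1, hinj⟩ := hP
  have hd : Differentiable ℂ (fun z => P.eval z) := P.differentiable
  refine ⟨hd.differentiableOn, hinj, ?_, ?_⟩
  · simp only; rw [← Polynomial.coeff_zero_eq_eval_zero, h0]
  · rw [P.deriv]
    rw [← Polynomial.coeff_zero_eq_eval_zero, Polynomial.coeff_derivative]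
    simp [h1]

theorem growth_poly (n : ℕ) (P : Polynomial ℂ) (hP : UnivPoly n P) (z : ℂ) (hz : ‖z‖ < 1) :
    ‖P.eval z‖ ≤ ‖z‖ / (1 - ‖z‖) ^ 2 := by
  have hS := inS_poly n P hP
  have hd : Differentiable ℂ (fun z => P.eval z) := P.differentiable
  exact growth (fun z => P.eval z) hd hS.2.2.1 (distortion (fun z => P.eval z) hd hS.2.2.2
    (fun z hz => deriv_ne_zero_of_inj (fun z => P.eval z) hd.differentiableOn hS.2.1 z hz)
    (fun ζ hζ => koebe_tr (fun z => P.eval z) hd hS.2.1 ζ hζ)) z hz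

theorem coeff_bound (n k : ℕ) (hk : k + 2 ≤ n) (P : Polynomial ℂ) (hP : UnivPoly n P) :
    ((n - k : ℕ) : ℝ) * ‖P.coeff (n - k)‖ ≤ 9 * ((k : ℝ) + 2) ^ 2 := by
  have hg := growth_poly n P hP
  have hS := inS_poly n P hP
  obtain ⟨hdeg, h0, h1, hinj⟩ := hP
  obtain ⟨g, c, hPS, hginj, hc0, hsq, hder⟩ := sqrt_transform _ hS
  set q := P.derivative with hq
  have hqc : ∀ i, q.coeff i = P.coeff (i + 1) * ((i : ℂ) + 1) := fun i =>
    Polynomial.coeff_derivative P i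
  have hqdeg : q.natDegree ≤ n - 1 := (Polynomial.natDegree_derivative_le P).trans (by omega)
  have hqne : ∀ z : ℂ, ‖z‖ < 1 → q.eval z ≠ 0 := by
    intro z hz
    have := deriv_ne_zero_of_inj (fun z => P.eval z) P.differentiable.differentiableOn hinj z hz
    rwa [P.deriv] at this
  have e1 : q.coeff (n - 1 - k) = P.coeff (n - k) * ((n - k : ℕ) : ℂ) := by
    rw [hqc, show n - 1 - k + 1 = n - k by omega]
    congr 1
    have : ((n - k : ℕ) : ℂ) = ((n - 1 - k : ℕ) : ℂ) + 1 := by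
      rw [show n - k = (n - 1 - k) + 1 by omega]; push_cast; ring
    rw [this]
  -- area bounds
  have hM : ∀ ρ : ℝ, 0 < ρ → ρ < 1 → ∀ z : ℂ, ‖z‖ ≤ ρ → ‖g z‖ ≤ ρ / (1 - ρ ^ 2) := by
    intro ρ hρ hρ1 z hz
    have hz1 : ‖z‖ < 1 := hz.trans_lt hρ1
    have hz2 : ‖z ^ 2‖ < 1 := by
      rw [norm_pow]; exact pow_lt_one₀ (norm_nonneg _) hz1 two_ne_zero
    have h2 := hg (z ^ 2) hz2
    have h3 : ‖g z‖ ^ 2 = ‖P.eval (z ^ 2)‖ := by rw [← norm_pow, hsq z hz1]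
    have hp : 0 < 1 - ρ ^ 2 := by nlinarith
    have hzn := norm_nonneg z
    have h4 : ‖z‖ ^ 2 ≤ ρ ^ 2 := pow_le_pow_left₀ hzn hz 2
    have h5 : ‖g z‖ ^ 2 ≤ (ρ / (1 - ρ ^ 2)) ^ 2 := by
      rw [h3, div_pow]
      refine h2.trans ?_
      rw [norm_pow]
      apply div_le_div₀ (by positivity) h4 (by positivity)
      apply pow_le_pow_left₀ hp.le
      linarith
    exact (pow_le_pow_iff_left₀ (norm_nonneg _) (by positivity) two_ne_zero).1 h5
  have harea : ∀ K : ℕ, ∀ ρ : ℝ, 0 < ρ → ρ < 1 →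
      ∑ i ∈ Finset.range K, (i : ℝ) * ‖c i‖ ^ 2 * ρ ^ (2 * i) ≤ (ρ / (1 - ρ ^ 2)) ^ 2 :=
    fun K ρ hρ hρ1 => area_ps_le g c hPS hginj ρ _ hρ hρ1 (hM ρ hρ hρ1) K
  -- the radius
  obtain ⟨K, hK⟩ : ∃ K : ℝ, K = (k : ℝ) := ⟨_, rfl⟩
  rw [← hK]
  have hK0 : 0 ≤ K := by rw [hK]; exact Nat.cast_nonneg k
  obtain ⟨r, hr⟩ : ∃ r : ℝ, r = (K + 1) / (K + 2) := ⟨_, rfl⟩
  have hr0 : 0 < r := by rw [hr]; positivity
  have hr1 : r < 1 := by rw [hr, div_lt_one (by positivity)]; linarith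
  have h1r : 1 - r = 1 / (K + 2) := by rw [hr]; field_simp; ring
  have hA : ∀ L : ℕ, ∑ i ∈ Finset.range L, ‖c i‖ ^ 2 * r ^ (2 * i) ≤ r ^ 2 / (1 - r ^ 2) :=
    fun L => mean_sum_le (fun i => ‖c i‖ ^ 2) (by simp [hc0]) L (harea L) r hr0 hr1
  have hB : ∀ L : ℕ, ∑ i ∈ Finset.range L, (i : ℝ) ^ 2 * ‖c i‖ ^ 2 * r ^ (2 * i) ≤
      r ^ 2 / (1 - r) ^ 3 :=
    fun L => sq_sum_le (fun i => ‖c i‖ ^ 2) (fun i => by positivity) L (harea L) r hr0 hr1
  have hcs := circle_cs g c hPS r _ _ hr0 hr1 hA hB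
  have hd : 0 < 1 - r := by linarith
  have hd2 : 0 < 1 - r ^ 2 := by nlinarith
  have hsqrt : Real.sqrt (r ^ 2 / (1 - r ^ 2) * (r ^ 2 / (1 - r) ^ 3)) ≤ r ^ 2 / (1 - r) ^ 2 := by
    apply Real.sqrt_le_iff.2
    refine ⟨by positivity, ?_⟩
    rw [div_mul_div_comm, div_pow]
    have : (1 - r) ≤ 1 - r ^ 2 := by nlinarith
    have h5 : ((1 - r) ^ 2) ^ 2 ≤ (1 - r ^ 2) * (1 - r) ^ 3 := by
      have h6 : ((1 - r) ^ 2) ^ 2 = (1 - r) * (1 - r) ^ 3 := by ring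
      rw [h6]
      exact mul_le_mul_of_nonneg_right this (by positivity)
    have h7 : r ^ 2 * r ^ 2 = (r ^ 2) ^ 2 := by ring
    rw [h7]
    exact div_le_div_of_nonneg_left (by positivity) (by positivity) h5
  have hcc := coeff_circle q (n - 1) k hqdeg (by omega) hqne r hr0 hr1
  have hcongr : Real.circleAverage (fun z => ‖q.eval (z ^ 2)‖) 0 r =
      Real.circleAverage (fun z => (1 / r ^ 2) • (‖g z‖ * ‖z * deriv g z‖)) 0 r := by
    apply Real.circleAverage_congr_sphere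
    intro z hz
    have hz' : ‖z‖ = r := by
      rw [abs_of_pos hr0] at hz
      simpa using hz
    have h8 := hder z (by rw [hz']; exact hr1)
    rw [P.deriv] at h8
    have h9 : r * ‖q.eval (z ^ 2)‖ = ‖g z‖ * ‖deriv g z‖ := by
      rw [← hz', ← norm_mul, ← norm_mul, hq, ← h8]
    simp only [smul_eq_mul]
    rw [norm_mul, hz']
    field_simp
    linear_combination h9
  have hav : Real.circleAverage (fun z => ‖q.eval (z ^ 2)‖) 0 r ≤ 1 / (1 - r) ^ 2 := by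
    rw [hcongr, Real.circleAverage_fun_smul, smul_eq_mul]
    have h10 := hcs.trans hsqrt
    calc 1 / r ^ 2 * Real.circleAverage (fun z => ‖g z‖ * ‖z * deriv g z‖) 0 r
        ≤ 1 / r ^ 2 * (r ^ 2 / (1 - r) ^ 2) := mul_le_mul_of_nonneg_left h10 (by positivity)
      _ = 1 / (1 - r) ^ 2 := by field_simp
  have hrpow : (1 : ℝ) / 9 ≤ r ^ (2 * k) := by
    have h2 : (1 / r) ^ (k + 1) ≤ Real.exp 1 := by
      have h3 : 1 / r = 1 + 1 / (K + 1) := by rw [hr]; field_simp; ring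
      have h4 : 1 / r ≤ Real.exp (1 / (K + 1)) := by
        rw [h3]
        have := Real.add_one_le_exp (1 / (K + 1))
        linarith
      calc (1 / r) ^ (k + 1) ≤ (Real.exp (1 / (K + 1))) ^ (k + 1) :=
            pow_le_pow_left₀ (by positivity) h4 _
        _ = Real.exp 1 := by
            rw [← Real.exp_nat_mul]
            congr 1
            push_cast
            rw [← hK]
            field_simp
    have h5 : Real.exp 1 < 3 := by
      have := Real.exp_one_lt_d9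
      linarith
    have h6 : (1 / r) ^ (2 * (k + 1)) ≤ 9 := by
      rw [mul_comm, pow_mul]
      have h7 : 0 ≤ (1 / r) ^ (k + 1) := by positivity
      nlinarith
    have h8 : 0 < r ^ (2 * (k + 1)) := by positivity
    rw [one_div, inv_pow] at h6
    rw [one_div]
    exact (inv_le_of_inv_le₀ h8 h6).trans (pow_le_pow_of_le_one hr0.le hr1.le (by omega))
  have hfin : ‖q.coeff (n - 1 - k)‖ * r ^ (2 * k) ≤ (K + 2) ^ 2 := by
    refine (hcc.trans hav).trans (le_of_eq ?_)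
    rw [h1r]
    field_simp
  rw [e1, norm_mul, Complex.norm_natCast] at hfin
  have hX : 0 ≤ ‖P.coeff (n - k)‖ * ((n - k : ℕ) : ℝ) := by positivity
  nlinarith

theorem coeff_le_one (n k : ℕ) (hk : k + 2 ≤ n)
    (hb : 9 * ((k : ℝ) + 2) ^ 2 ≤ ((n - k : ℕ) : ℝ))
    (P : Polynomial ℂ) (hP : UnivPoly n P) : ‖P.coeff (n - k)‖ ≤ 1 := by
  have h := (coeff_bound n k hk P hP).trans hb
  have hpos : (0 : ℝ) < ((n - k : ℕ) : ℝ) := by
    have : 0 < n - k := by omega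
    positivity
  by_contra hcon
  push Not at hcon
  nlinarith

theorem univ_X (n : ℕ) (hn : 1 ≤ n) : UnivPoly n Polynomial.X := by
  refine ⟨by simpa using hn, by simp, by simp, ?_⟩
  intro z _ w _ h
  simpa using h

theorem mem_of_bound (n k : ℕ) (hk : k + 2 ≤ n)
    (hb : 9 * ((k : ℝ) + 2) ^ 2 ≤ ((n - k : ℕ) : ℝ)) :
    n - k ∈ {j : ℕ | 2 ≤ j ∧ j ≤ n ∧ ∀ m : ℕ, j ≤ m → m ≤ n → Amax n m ≤ 1} := by
  refine ⟨by omega, by omega, ?_⟩
  intro m hm hmn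
  apply csSup_le
  · exact ⟨_, Polynomial.X, univ_X n (by omega), rfl⟩
  · rintro _ ⟨P, hP, rfl⟩
    obtain ⟨l, hl⟩ : ∃ l, m = n - l ∧ l ≤ k := ⟨n - m, by omega, by omega⟩
    rw [hl.1]
    apply coeff_le_one n l (by omega) _ P hP
    have hlk : (l : ℝ) ≤ k := by exact_mod_cast hl.2
    have h1 : ((n - k : ℕ) : ℝ) ≤ ((n - l : ℕ) : ℝ) := by exact_mod_cast (by omega : n - k ≤ n - l)
    have h2 : 9 * ((l : ℝ) + 2) ^ 2 ≤ 9 * ((k : ℝ) + 2) ^ 2 := by gcongr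
    exact h2.trans (hb.trans h1)

theorem coeff_crude (n m : ℕ) (hmn : m ≤ n) (hm : 1 ≤ m) (P : Polynomial ℂ) (hP : UnivPoly n P) :
    ‖P.coeff m‖ ≤ 2 * 2 ^ m := by
  have hg := growth_poly n P hP
  obtain ⟨hdeg, h0, h1, hinj⟩ := hP
  have hb : ∀ z : ℂ, ‖z‖ ≤ 1 / 2 → ‖P.eval z‖ ≤ 2 := by
    intro z hz
    refine (hg z (by linarith)).trans ?_
    rw [div_le_iff₀ (by have : 0 < 1 - ‖z‖ := by linarith
                        positivity)]
    nlinarith [norm_nonneg z]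
  have h := area_poly_le P n hdeg (1 / 2) 2 (by norm_num) (by norm_num) hinj hb
  have h2 : (m : ℝ) * ‖P.coeff m‖ ^ 2 * (1 / 2) ^ (2 * m) ≤ 2 ^ 2 := by
    refine le_trans ?_ h
    exact Finset.single_le_sum (f := fun i : ℕ => (i : ℝ) * ‖P.coeff i‖ ^ 2 * (1 / 2) ^ (2 * i))
      (fun i _ => by positivity) (Finset.mem_range.2 (by omega))
  have hm1 : (1 : ℝ) ≤ m := by exact_mod_cast hm
  have h3 : ‖P.coeff m‖ ^ 2 * (1 / 2) ^ (2 * m) ≤ 2 ^ 2 := by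
    refine le_trans ?_ h2
    have : 0 ≤ ‖P.coeff m‖ ^ 2 * (1 / 2 : ℝ) ^ (2 * m) := by positivity
    nlinarith
  have h4 : ‖P.coeff m‖ ^ 2 ≤ (2 * 2 ^ m) ^ 2 := by
    have h5 : (1 / 2 : ℝ) ^ (2 * m) * (2 ^ m) ^ 2 = 1 := by
      rw [← pow_mul, mul_comm m 2, ← mul_pow]; norm_num
    calc ‖P.coeff m‖ ^ 2 = ‖P.coeff m‖ ^ 2 * ((1 / 2 : ℝ) ^ (2 * m) * (2 ^ m) ^ 2) := by
          rw [h5, mul_one]
      _ = (‖P.coeff m‖ ^ 2 * (1 / 2) ^ (2 * m)) * (2 ^ m) ^ 2 := by ring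
      _ ≤ 2 ^ 2 * (2 ^ m) ^ 2 := mul_le_mul_of_nonneg_right h3 (by positivity)
      _ = _ := by ring
  exact (pow_le_pow_iff_left₀ (norm_nonneg _) (by positivity) two_ne_zero).1 h4

theorem lt_nOne (n l : ℕ) (hn : 100 ≤ n) (hl : 1 ≤ l) (hln : l ≤ n) (P : Polynomial ℂ)
    (hP : UnivPoly n P) (hbig : 1 < ‖P.coeff l‖) : l < nOne n := by
  by_contra hcon
  push Not at hcon
  have hn' : (100 : ℝ) ≤ n := by exact_mod_cast hn
  have hmem := Nat.sInf_mem (s := {j : ℕ | 2 ≤ j ∧ j ≤ n ∧ ∀ m : ℕ, j ≤ m → m ≤ n → Amax n m ≤ 1})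
    ⟨n - 0, mem_of_bound n 0 (by omega) (by simp; linarith)⟩
  have h1 := hmem.2.2 l hcon hln
  have h2 : ‖P.coeff l‖ ≤ Amax n l := by
    apply le_csSup
    · refine ⟨2 * 2 ^ l, ?_⟩
      rintro _ ⟨Q, hQ, rfl⟩
      exact coeff_crude n l hln hl Q hQ
    · exact ⟨P, hP, rfl⟩
  linarith

/-- main theorem -/
theorem result :
    (∀ n : ℕ, 4000 ≤ n → (nOne n : ℝ) ≤ (n : ℝ) - Real.sqrt n / 4) ∧
      (∀ n : ℕ, 10 ^ 10 ≤ n → (n : ℝ) - 104 * Real.sqrt n ≤ (nOne n : ℝ)) := by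
  refine ⟨?_, ?_⟩
  · intro n hn
    set x : ℝ := Real.sqrt n with hx
    have hn0 : (4000 : ℝ) ≤ n := by exact_mod_cast hn
    have hx2 : x ^ 2 = n := Real.sq_sqrt (by positivity)
    have hx60 : 63 ≤ x := by
      apply Real.le_sqrt_of_sq_le
      linarith
    set k : ℕ := ⌊3 * x / 10⌋₊ with hk
    have hk1 : (k : ℝ) ≤ 3 * x / 10 := Nat.floor_le (by positivity)
    have hk2 : 3 * x / 10 < k + 1 := Nat.lt_floor_add_one _
    have hkn : (k : ℝ) + 2 ≤ n := by nlinarith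
    have hkn' : k + 2 ≤ n := by exact_mod_cast hkn
    have hcast : ((n - k : ℕ) : ℝ) = (n : ℝ) - k := by
      rw [Nat.cast_sub (by omega)]
    have hb : 9 * ((k : ℝ) + 2) ^ 2 ≤ ((n - k : ℕ) : ℝ) := by
      rw [hcast]
      have h1 : 9 * ((k : ℝ) + 2) ^ 2 ≤ 9 * (3 * x / 10 + 2) ^ 2 := by gcongr
      refine h1.trans ?_
      rw [← hx2]
      nlinarith
    have h : nOne n ≤ n - k := Nat.sInf_le (mem_of_bound n k hkn' hb)
    have h' : (nOne n : ℝ) ≤ ((n - k : ℕ) : ℝ) := by exact_mod_cast h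
    rw [hcast] at h'
    linarith
  · intro n hn
    obtain ⟨d, m, M, hd, hm, hM, hnM, hmn, hτ, hbig, hlow⟩ := params n hn
    obtain ⟨P, hP, l, hl1, hl2, hl3⟩ := exists_big n d m M hd hm hM hnM hmn hτ hbig
    have h := lt_nOne n l (by omega) (by omega) hl2 P hP hl3
    have h' : (M : ℝ) ≤ nOne n := by exact_mod_cast (by omega : M ≤ nOne n)
    linarith

end Pool.Agent.Results.MP_c09211_an.OrderOfMagnitude
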