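import Mathlib
import Pool.Agent.Helper671.UP.Univ

set_option autoImplicit false

namespace Pool.Agent.Results.MP_c09211_an.TopCoefficients

open Pool.Agent.Helper671.UP

/-- `P(z) = z + a₂ z² + … + aₙ zⁿ` is injective in the open unit disc. -/
def UnivPoly (n : ℕ) (P : Polynomial ℂ) : Prop :=
  P.natDegree ≤ n ∧ P.coeff 0 = 0 ∧ P.coeff 1 = 1 ∧
    Set.InjOn (fun z : ℂ => P.eval z) (Metric.ball (0 : ℂ) 1)

/-- `A_m(n)`: the supremum of `|a_m|` over the class. -/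
noncomputable def Amax (n m : ℕ) : ℝ :=
  sSup {r : ℝ | ∃ P : Polynomial ℂ, UnivPoly n P ∧ r = ‖P.coeff m‖}

/-- `n₁(n)`: the least `j` with `2 ≤ j ≤ n` such that `A_m(n) ≤ 1` for all `j ≤ m ≤ n`. -/
noncomputable def nOne (n : ℕ) : ℕ :=
  sInf {j : ℕ | 2 ≤ j ∧ j ≤ n ∧ ∀ m : ℕ, j ≤ m → m ≤ n → Amax n m ≤ 1}

theorem growth_poly (n : ℕ) (P : Polynomial ℂ) (hP : UnivPoly n P) (z : ℂ) (hz : ‖z‖ < 1) :
    ‖P.eval z‖ ≤ ‖z‖ / (1 - ‖z‖) ^ 2 := by
  obtain ⟨hdeg, h0, h1, hinj⟩ := hP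
  set f : ℂ → ℂ := fun z => P.eval z with hf
  have hd : Differentiable ℂ f := P.differentiable
  have hder : deriv f = fun z => P.derivative.eval z := by
    funext z; exact P.deriv
  have hf0 : f 0 = 0 := by
    simp only [hf]; rw [← Polynomial.coeff_zero_eq_eval_zero, h0]
  have hf1 : deriv f 0 = 1 := by
    rw [hder]; simp only
    rw [← Polynomial.coeff_zero_eq_eval_zero, Polynomial.coeff_derivative]
    simp [h1]
  exact growth f hd hf0 (distortion f hd hf1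
    (fun z hz => deriv_ne_zero_of_inj f hd.differentiableOn hinj z hz)
    (fun ζ hζ => koebe_tr f hd hinj ζ hζ)) z hz

theorem coeff_bound (n k : ℕ) (hk : k + 2 ≤ n) (P : Polynomial ℂ) (hP : UnivPoly n P) :
    ((n - k : ℕ) : ℝ) ^ 2 * ‖P.coeff (n - k)‖ ^ 2 ≤ 9 * ((k : ℝ) + 1) ^ 3 * ((k : ℝ) + 2) ^ 2 := by
  have hg := growth_poly n P hP
  obtain ⟨hdeg, h0, h1, hinj⟩ := hP
  set q := P.derivative with hq
  have hqc : ∀ i, q.coeff i = P.coeff (i + 1) * ((i : ℂ) + 1) := fun i =>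
    Polynomial.coeff_derivative P i
  have hqdeg : q.natDegree ≤ n - 1 := (Polynomial.natDegree_derivative_le P).trans (by omega)
  have hqne : ∀ z : ℂ, ‖z‖ < 1 → q.eval z ≠ 0 := by
    intro z hz
    have := deriv_ne_zero_of_inj (fun z => P.eval z) P.differentiable.differentiableOn hinj z hz
    rwa [P.deriv] at this
  have htop := coeff_top_le q (n - 1) k hqdeg (by omega) hqne
  have e1 : q.coeff (n - 1 - k) = P.coeff (n - k) * ((n - k : ℕ) : ℂ) := by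
    rw [hqc, show n - 1 - k + 1 = n - k by omega]
    congr 1
    have : ((n - k : ℕ) : ℂ) = ((n - 1 - k : ℕ) : ℂ) + 1 := by
      rw [show n - k = (n - 1 - k) + 1 by omega]; push_cast; ring
    rw [this]
  rw [e1, norm_mul, Complex.norm_natCast, mul_pow] at htop
  -- the radius
  set K : ℝ := (k : ℝ) with hK
  have hK0 : 0 ≤ K := Nat.cast_nonneg k
  set r : ℝ := (K + 1) / (K + 2) with hr
  have hr0 : 0 < r := by positivity
  have hr1 : r < 1 := by rw [hr, div_lt_one (by positivity)]; linarith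
  have h1r : 1 - r = 1 / (K + 2) := by rw [hr]; field_simp; ring
  set M : ℝ := (K + 1) * (K + 2) with hM
  have hMr : r / (1 - r) ^ 2 = M := by
    rw [h1r, hr, hM]; field_simp
  have hbound : ∀ z : ℂ, ‖z‖ ≤ r → ‖P.eval z‖ ≤ M := by
    intro z hz
    refine (hg z (hz.trans_lt hr1)).trans ?_
    rw [← hMr]
    have ha : 0 < 1 - ‖z‖ := by linarith
    have hb : 0 < 1 - r := by linarith
    apply div_le_div₀ hr0.le hz (by positivity)
    apply pow_le_pow_left₀ hb.le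
    linarith
  have harea := area_poly_le P n hdeg r M hr0 hr1 hinj hbound
  -- compare the sums
  have hrpow : (1 : ℝ) / 9 ≤ r ^ (2 * (k + 1)) := by
    have h2 : (1 / r) ^ (k + 1) ≤ Real.exp 1 := by
      have h3 : 1 / r = 1 + 1 / (K + 1) := by rw [hr]; field_simp; ring
      have h4 : 1 / r ≤ Real.exp (1 / (K + 1)) := by
        rw [h3]
        have := Real.add_one_le_exp (1 / (K + 1))
        linarith
      calc (1 / r) ^ (k + 1) ≤ (Real.exp (1 / (K + 1))) ^ (k + 1) :=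
            pow_le_pow_left₀ (by positivity) h4 _
        _ = Real.exp 1 := by
            rw [← Real.exp_nat_mul]
            congr 1
            push_cast
            rw [← hK]
            field_simp
    have h5 : Real.exp 1 < 3 := by
      have := Real.exp_one_lt_d9
      linarith
    have h6 : (1 / r) ^ (2 * (k + 1)) ≤ 9 := by
      rw [mul_comm, pow_mul]
      have h7 : 0 ≤ (1 / r) ^ (k + 1) := by positivity
      nlinarith
    have h8 : 0 < r ^ (2 * (k + 1)) := by positivity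
    rw [one_div, inv_pow] at h6
    rw [one_div]
    exact inv_le_of_inv_le₀ h8 h6
  have hcmp : ∑ i ∈ Finset.range (k + 1), ‖q.coeff i‖ ^ 2 ≤ (K + 1) * (9 * M ^ 2) := by
    have s1 : ∑ i ∈ Finset.range (k + 1), ‖q.coeff i‖ ^ 2 ≤
        ∑ i ∈ Finset.range (k + 1), (K + 1) * (9 * (((i + 1 : ℕ) : ℝ) * ‖P.coeff (i + 1)‖ ^ 2 *
          r ^ (2 * (i + 1)))) := by
      apply Finset.sum_le_sum
      intro i hi
      rw [Finset.mem_range] at hi
      rw [hqc, norm_mul, mul_pow]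
      have e2 : ‖((i : ℂ) + 1)‖ = (i : ℝ) + 1 := by
        have : ((i : ℂ) + 1) = ((i + 1 : ℕ) : ℂ) := by push_cast; ring
        rw [this, Complex.norm_natCast]; push_cast; ring
      rw [e2]
      have hiK : (i : ℝ) + 1 ≤ K + 1 := by
        have : (i : ℝ) ≤ k := by exact_mod_cast (by omega : i ≤ k)
        linarith
      have hri : (1 : ℝ) / 9 ≤ r ^ (2 * (i + 1)) := by
        refine hrpow.trans ?_
        exact pow_le_pow_of_le_one hr0.le hr1.le (by omega)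
      have h9 : (1 : ℝ) ≤ 9 * r ^ (2 * (i + 1)) := by linarith
      push_cast
      have hi0 : (0 : ℝ) ≤ (i : ℝ) + 1 := by positivity
      have hc0 : 0 ≤ ‖P.coeff (i + 1)‖ ^ 2 := by positivity
      have hX : 0 ≤ ((i : ℝ) + 1) * ‖P.coeff (i + 1)‖ ^ 2 := by positivity
      calc ‖P.coeff (i + 1)‖ ^ 2 * ((i : ℝ) + 1) ^ 2
          = ((i : ℝ) + 1) * (((i : ℝ) + 1) * ‖P.coeff (i + 1)‖ ^ 2) := by ring
        _ ≤ (K + 1) * (((i : ℝ) + 1) * ‖P.coeff (i + 1)‖ ^ 2) :=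
            mul_le_mul_of_nonneg_right hiK hX
        _ ≤ (K + 1) * (((i : ℝ) + 1) * ‖P.coeff (i + 1)‖ ^ 2 * (9 * r ^ (2 * (i + 1)))) := by
            apply mul_le_mul_of_nonneg_left _ (by positivity)
            exact le_mul_of_one_le_right hX h9
        _ = _ := by ring
    refine s1.trans ?_
    rw [← Finset.mul_sum, ← Finset.mul_sum]
    apply mul_le_mul_of_nonneg_left _ (by positivity)
    apply mul_le_mul_of_nonneg_left _ (by norm_num)
    refine le_trans ?_ harea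
    have s2 : ∑ i ∈ Finset.range (k + 1), (((i + 1 : ℕ) : ℝ) * ‖P.coeff (i + 1)‖ ^ 2 *
        r ^ (2 * (i + 1))) ≤ ∑ i ∈ Finset.range (k + 2), ((i : ℝ) * ‖P.coeff i‖ ^ 2 *
        r ^ (2 * i)) := by
      rw [Finset.sum_range_succ' _ (k + 1)]
      simp
    refine s2.trans ?_
    apply Finset.sum_le_sum_of_subset_of_nonneg
    · intro i hi
      rw [Finset.mem_range] at hi ⊢
      omega
    · intro i _ _
      positivity
  calc ((n - k : ℕ) : ℝ) ^ 2 * ‖P.coeff (n - k)‖ ^ 2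
      = ‖P.coeff (n - k)‖ ^ 2 * ((n - k : ℕ) : ℝ) ^ 2 := by ring
    _ ≤ _ := htop
    _ ≤ _ := hcmp
    _ = _ := by rw [hM]; ring

theorem coeff_le_one (n k : ℕ) (hk : k + 2 ≤ n)
    (hb : 9 * ((k : ℝ) + 1) ^ 3 * ((k : ℝ) + 2) ^ 2 ≤ ((n - k : ℕ) : ℝ) ^ 2)
    (P : Polynomial ℂ) (hP : UnivPoly n P) : ‖P.coeff (n - k)‖ ≤ 1 := by
  have h := (coeff_bound n k hk P hP).trans hb
  have hpos : (0 : ℝ) < ((n - k : ℕ) : ℝ) ^ 2 := by
    have : 0 < n - k := by omega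
    positivity
  have h2 : ‖P.coeff (n - k)‖ ^ 2 ≤ 1 := by
    by_contra hcon
    push Not at hcon
    nlinarith
  nlinarith [norm_nonneg (P.coeff (n - k))]

theorem univ_X (n : ℕ) (hn : 1 ≤ n) : UnivPoly n Polynomial.X := by
  refine ⟨by simpa using hn, by simp, by simp, ?_⟩
  intro z _ w _ h
  simpa using h

theorem nOne_le (n k : ℕ) (hk : k + 2 ≤ n)
    (hb : 9 * ((k : ℝ) + 1) ^ 3 * ((k : ℝ) + 2) ^ 2 ≤ ((n - k : ℕ) : ℝ) ^ 2) : nOne n ≤ n - k := by
  apply Nat.sInf_le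
  refine ⟨by omega, by omega, ?_⟩
  intro m hm hmn
  apply csSup_le
  · exact ⟨_, Polynomial.X, univ_X n (by omega), rfl⟩
  · rintro _ ⟨P, hP, rfl⟩
    obtain ⟨l, hl⟩ : ∃ l, m = n - l ∧ l ≤ k := ⟨n - m, by omega, by omega⟩
    rw [hl.1]
    apply coeff_le_one n l (by omega) _ P hP
    have hlk : (l : ℝ) ≤ k := by exact_mod_cast hl.2
    have h1 : ((n - k : ℕ) : ℝ) ≤ ((n - l : ℕ) : ℝ) := by exact_mod_cast (by omega : n - k ≤ n - l)
    have h2 : 9 * ((l : ℝ) + 1) ^ 3 * ((l : ℝ) + 2) ^ 2 ≤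
        9 * ((k : ℝ) + 1) ^ 3 * ((k : ℝ) + 2) ^ 2 := by gcongr
    refine h2.trans (hb.trans ?_)
    gcongr

/-- main theorem -/
theorem result (n : ℕ) (hn : 3000 ≤ n) :
    (nOne n : ℝ) ≤ (n : ℝ) - (n : ℝ) ^ ((2 : ℝ) / 5) / 5 := by
  set x : ℝ := (n : ℝ) ^ ((2 : ℝ) / 5) with hx
  have hn0 : (3000 : ℝ) ≤ n := by exact_mod_cast hn
  have hx0 : 0 < x := by positivity
  have hx5 : x ^ 5 = (n : ℝ) ^ 2 := by
    rw [hx, ← Real.rpow_natCast, ← Real.rpow_mul (by positivity)]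
    norm_num
  have hx24 : 24 ≤ x := by
    by_contra hcon
    push Not at hcon
    have : x ^ 5 < 24 ^ 5 := pow_lt_pow_left₀ hcon hx0.le (by norm_num)
    rw [hx5] at this
    nlinarith
  set k : ℕ := ⌊x / 4⌋₊ with hk
  have hk1 : (k : ℝ) ≤ x / 4 := Nat.floor_le (by positivity)
  have hk2 : x / 4 < k + 1 := Nat.lt_floor_add_one _
  have hxn : x ≤ n / 100 := by
    by_contra hcon
    push Not at hcon
    have h1 : ((n : ℝ) / 100) ^ 5 < x ^ 5 := pow_lt_pow_left₀ hcon (by positivity) (by norm_num)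
    rw [hx5] at h1
    have h2 : (n : ℝ) ^ 2 * (n : ℝ) ^ 3 < 100 ^ 5 * (n : ℝ) ^ 2 := by nlinarith
    have h3 : (n : ℝ) ^ 3 < 100 ^ 5 := by
      by_contra h4
      push Not at h4
      nlinarith [pow_pos (by linarith : (0 : ℝ) < n) 2]
    have h4 : (3000 : ℝ) ^ 3 ≤ (n : ℝ) ^ 3 := pow_le_pow_left₀ (by norm_num) hn0 3
    norm_num at h3 h4
    linarith
  have hkn : (k : ℝ) + 2 ≤ n := by linarith
  have hkn' : k + 2 ≤ n := by exact_mod_cast hkn
  have hcast : ((n - k : ℕ) : ℝ) = (n : ℝ) - k := by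
    rw [Nat.cast_sub (by omega)]
  have hb : 9 * ((k : ℝ) + 1) ^ 3 * ((k : ℝ) + 2) ^ 2 ≤ ((n - k : ℕ) : ℝ) ^ 2 := by
    rw [hcast]
    have h1 : (k : ℝ) + 1 ≤ x / 3 := by linarith
    have h2 : (k : ℝ) + 2 ≤ x / 3 := by linarith
    have h3 : 9 * ((k : ℝ) + 1) ^ 3 * ((k : ℝ) + 2) ^ 2 ≤ 9 * (x / 3) ^ 3 * (x / 3) ^ 2 := by
      gcongr
    have h4 : 9 * (x / 3) ^ 3 * (x / 3) ^ 2 = (n : ℝ) ^ 2 / 27 := by
      rw [← hx5]; ring
    have h5 : (n : ℝ) / 2 ≤ (n : ℝ) - k := by linarith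
    have h6 : ((n : ℝ) / 2) ^ 2 ≤ ((n : ℝ) - k) ^ 2 := pow_le_pow_left₀ (by positivity) h5 2
    rw [h4] at h3
    refine h3.trans (le_trans ?_ h6)
    nlinarith
  have h := nOne_le n k hkn' hb
  have h' : (nOne n : ℝ) ≤ ((n - k : ℕ) : ℝ) := by exact_mod_cast h
  rw [hcast] at h'
  linarith

end Pool.Agent.Results.MP_c09211_an.TopCoefficients
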